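import Mathlib

/-!
# Transcendence degree of a field generated by Gamma values: algebraic part
-/

set_option autoImplicit false
set_option linter.unusedSectionVars false
set_option maxHeartbeats 4000000
set_option synthInstance.maxHeartbeats 400000

open IntermediateField

namespace Pool.Agent.U171.LRo

section

variable {k κ : Type} [Field k] [Field κ] [Algebra k κ]

/-- If every element of the subfield `F` is algebraic over the field generated by `r` numbers, then the transcendence
degree of `F` is at most `r`. -/
theorem trdeg_le_of_alg (F : IntermediateField k κ) {r : ℕ} (v : Fin r → κ)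
    (h : ∀ z ∈ F, IsAlgebraic (IntermediateField.adjoin k (Set.range v)) z) :
    Algebra.trdeg k F ≤ r := by
  let E : IntermediateField k κ := F ⊔ IntermediateField.adjoin k (Set.range v)
  have hvE : ∀ i, v i ∈ E := fun i =>
    (le_sup_right : IntermediateField.adjoin k (Set.range v) ≤ E)
      (IntermediateField.subset_adjoin _ _ ⟨i, rfl⟩)
  let w : Fin r → E := fun i => ⟨v i, hvE i⟩
  have h1 : ∀ z ∈ E, IsAlgebraic (IntermediateField.adjoin k (Set.range v)) z := by
    intro z hz
    let A : IntermediateField (IntermediateField.adjoin k (Set.range v)) κ :=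
      algebraicClosure (IntermediateField.adjoin k (Set.range v)) κ
    have h2 : E ≤ A.restrictScalars k := by
      refine sup_le (fun z hz => ?_) fun z hz => ?_
      · rw [mem_restrictScalars, mem_algebraicClosure_iff]
        exact h z hz
      · rw [mem_restrictScalars]
        exact A.algebraMap_mem ⟨z, hz⟩
    exact mem_algebraicClosure_iff.1 (h2 hz)
  have h3 : Algebra.IsAlgebraic (Algebra.adjoin k (Set.range w)) E := by
    refine ⟨fun z => ?_⟩
    have h4 := h1 z z.2
    rw [IntermediateField.isAlgebraic_adjoin_iff] at h4
    have hmap : ∀ x ∈ Algebra.adjoin k (Set.range v), ∃ y ∈ Algebra.adjoin k (Set.range w),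
        (y : κ) = x := by
      intro x hx
      have h5 : (Algebra.adjoin k (Set.range w)).map E.val = Algebra.adjoin k (Set.range v) := by
        rw [AlgHom.map_adjoin, ← Set.range_comp]
        rfl
      rw [← h5] at hx
      obtain ⟨y, hy, rfl⟩ := hx
      exact ⟨y, hy, rfl⟩
    choose g hg hg' using hmap
    let G : Algebra.adjoin k (Set.range v) →+* Algebra.adjoin k (Set.range w) :=
      { toFun := fun x => ⟨g x x.2, hg x x.2⟩
        map_one' := by
          apply Subtype.ext; apply Subtype.ext
          change ((g _ _ : E) : κ) = 1
          rw [hg']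
          rfl
        map_mul' := fun a b => by
          apply Subtype.ext; apply Subtype.ext
          change ((g _ _ : E) : κ) = (g _ _ : E) * (g _ _ : E)
          rw [hg', hg', hg']
          rfl
        map_zero' := by
          apply Subtype.ext; apply Subtype.ext
          change ((g _ _ : E) : κ) = 0
          rw [hg']
          rfl
        map_add' := fun a b => by
          apply Subtype.ext; apply Subtype.ext
          change ((g _ _ : E) : κ) = (g _ _ : E) + (g _ _ : E)
          rw [hg', hg', hg']
          rfl }
    obtain ⟨p, hp0, hp⟩ := h4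
    refine ⟨p.map G, ?_, ?_⟩
    · rw [Polynomial.map_ne_zero_iff]
      · exact hp0
      · intro a b hab
        have h6 := congrArg (fun x : Algebra.adjoin k (Set.range w) => ((x : E) : κ)) hab
        apply Subtype.ext
        rw [← hg' a a.2, ← hg' b b.2]
        exact h6
    · apply Subtype.ext
      change E.val (Polynomial.aeval z (p.map G)) = 0
      rw [Polynomial.aeval_def, Polynomial.eval₂_map]
      rw [← AlgHom.coe_toRingHom, Polynomial.hom_eval₂]
      rw [Polynomial.aeval_def] at hp
      rw [← hp]
      congr 1
      ext a
      change ((g a a.2 : E) : κ) = a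
      exact hg' _ _
  have h4 : Algebra.trdeg k E ≤ Cardinal.mk (Set.range w) :=
    Algebra.IsAlgebraic.trdeg_le_cardinalMk k (Set.range w)
  have h5 : Cardinal.mk (Set.range w) ≤ r := by
    refine Cardinal.mk_range_le.trans ?_
    rw [Cardinal.mk_fin]
  have h6 : Algebra.trdeg k F ≤ Algebra.trdeg k E :=
    _root_.trdeg_le_of_injective (IntermediateField.inclusion (le_sup_left : F ≤ E))
      (IntermediateField.inclusion (le_sup_left : F ≤ E)).injective
  exact h6.trans (h4.trans h5)

/-- The same for a field generated by a set, and a finite set in place of the `r` numbers. -/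
theorem trdeg_adjoin_le (S : Set κ) (B : Finset κ)
    (h : ∀ z ∈ S, IsAlgebraic (IntermediateField.adjoin k (B : Set κ)) z) :
    Algebra.trdeg k (IntermediateField.adjoin k S) ≤ (B.card : ℕ) := by
  have hB : Set.range (fun i : Fin B.card => ((B.equivFin.symm i : B) : κ)) = (B : Set κ) := by
    ext z
    constructor
    · rintro ⟨i, rfl⟩
      exact (B.equivFin.symm i).2
    · intro hz
      exact ⟨B.equivFin ⟨z, hz⟩, by simp⟩
  refine trdeg_le_of_alg (IntermediateField.adjoin k S)
    (fun i : Fin B.card => ((B.equivFin.symm i : B) : κ)) ?_
  rw [hB]
  intro z hz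
  let A : IntermediateField (IntermediateField.adjoin k (B : Set κ)) κ :=
    algebraicClosure (IntermediateField.adjoin k (B : Set κ)) κ
  have h2 : IntermediateField.adjoin k S ≤ A.restrictScalars k := by
    rw [IntermediateField.adjoin_le_iff]
    intro z hz
    change z ∈ A.restrictScalars k
    rw [mem_restrictScalars, mem_algebraicClosure_iff]
    exact h z hz
  exact mem_algebraicClosure_iff.1 (h2 hz)

end

end Pool.Agent.U171.LRo
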