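import Mathlib
import Pool.Agent.R260.LrA
import Pool.Agent.U171.LRo.Base

/-!
# Logarithms of Gamma values modulo logarithms of numbers algebraic over `ℚ(π)`
-/

set_option autoImplicit false
set_option linter.unusedSectionVars false
set_option maxHeartbeats 4000000
set_option synthInstance.maxHeartbeats 400000

open IntermediateField

namespace Pool.Agent.U171.LRo

/-- The complex numbers which are algebraic over the field generated by `S`. -/
noncomputable def Cl (S : Set ℂ) : IntermediateField ℚ ℂ :=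
  (algebraicClosure (IntermediateField.adjoin ℚ S) ℂ).restrictScalars ℚ

theorem mem_Cl {S : Set ℂ} {z : ℂ} :
    z ∈ Cl S ↔ IsAlgebraic (IntermediateField.adjoin ℚ S) z := by
  unfold Cl
  rw [mem_restrictScalars, mem_algebraicClosure_iff]

theorem subset_Cl (S : Set ℂ) {z : ℂ} (hz : z ∈ S) : z ∈ Cl S :=
  mem_Cl.2 (isAlgebraic_algebraMap
    (⟨z, IntermediateField.subset_adjoin ℚ S hz⟩ : IntermediateField.adjoin ℚ S))

theorem Cl_mono {S S' : Set ℂ} (h : S ⊆ S') {z : ℂ} (hz : z ∈ Cl S) : z ∈ Cl S' := by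
  have hle : IntermediateField.adjoin ℚ S ≤ IntermediateField.adjoin ℚ S' :=
    IntermediateField.adjoin.mono ℚ _ _ h
  obtain ⟨p, hp0, hp⟩ := mem_Cl.1 hz
  refine mem_Cl.2 ⟨p.map (IntermediateField.inclusion hle).toRingHom, ?_, ?_⟩
  · rw [Polynomial.map_ne_zero_iff]
    · exact hp0
    · exact (IntermediateField.inclusion hle).toRingHom.injective
  · rw [Polynomial.aeval_def, Polynomial.eval₂_map]
    rw [Polynomial.aeval_def] at hp
    exact hp

theorem alg_mem_Cl (S : Set ℂ) {z : ℂ} (h : IsAlgebraic ℚ z) : z ∈ Cl S :=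
  mem_Cl.2 (h.tower_top _)

theorem root_mem_Cl {S : Set ℂ} {z : ℂ} {n : ℕ} (hn : 0 < n) (h : z ^ n ∈ Cl S) : z ∈ Cl S :=
  mem_Cl.2 (IsAlgebraic.of_pow hn (mem_Cl.1 h))

/-- The numbers algebraic over `ℚ(π)`. -/
noncomputable def A : IntermediateField ℚ ℂ := Cl {(Real.pi : ℂ)}

theorem pi_mem : (Real.pi : ℂ) ∈ A := subset_Cl _ rfl

/-- The real numbers `t` such that `exp t` is algebraic over the field generated by `S`; a rational vector space. -/
noncomputable def Lam (S : Set ℂ) : Submodule ℚ ℝ where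
  carrier := {t | ((Real.exp t : ℝ) : ℂ) ∈ Cl S}
  zero_mem' := by
    simp only [Set.mem_ofPred_eq, Real.exp_zero, Complex.ofReal_one]
    exact one_mem _
  add_mem' := by
    intro a b ha hb
    simp only [Set.mem_ofPred_eq] at *
    rw [Real.exp_add, Complex.ofReal_mul]
    exact mul_mem ha hb
  smul_mem' := by
    intro c t ht
    simp only [Set.mem_ofPred_eq] at *
    have hd : 0 < c.den := c.den_pos
    apply root_mem_Cl hd
    have h1 : (((Real.exp (c • t) : ℝ) : ℂ)) ^ c.den = ((Real.exp t : ℝ) : ℂ) ^ c.num := by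
      rw [← Complex.ofReal_pow, ← Complex.ofReal_zpow]
      congr 1
      rw [← Real.exp_nat_mul, ← Real.rpow_intCast, ← Real.exp_mul]
      congr 1
      rw [Rat.smul_def]
      have h2 : (c : ℝ) = c.num / c.den := by exact_mod_cast (Rat.num_div_den c).symm
      rw [h2]
      have h3 : (c.den : ℝ) ≠ 0 := by exact_mod_cast hd.ne'
      field_simp
    rw [h1]
    exact zpow_mem ht _

theorem mem_Lam {S : Set ℂ} {t : ℝ} : t ∈ Lam S ↔ ((Real.exp t : ℝ) : ℂ) ∈ Cl S := Iff.rfl

theorem log_mem_Lam {S : Set ℂ} {x : ℝ} (hx : 0 < x) (h : (x : ℂ) ∈ Cl S) : Real.log x ∈ Lam S := by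
  rw [mem_Lam, Real.exp_log hx]
  exact h

theorem of_log_mem_Lam {S : Set ℂ} {x : ℝ} (hx : 0 < x) (h : Real.log x ∈ Lam S) : (x : ℂ) ∈ Cl S := by
  rw [mem_Lam, Real.exp_log hx] at h
  exact h

theorem Lam_mono {S S' : Set ℂ} (h : S ⊆ S') : Lam S ≤ Lam S' := fun _ ht => Cl_mono h ht

/-- The rational vector space of the logarithms of numbers algebraic over `ℚ(π)`. -/
noncomputable abbrev L0 : Submodule ℚ ℝ := Lam {(Real.pi : ℂ)}

theorem log_pi : Real.log Real.pi ∈ L0 := log_mem_Lam Real.pi_pos pi_mem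

/-- The function `log Γ`. -/
noncomputable def lg (x : ℝ) : ℝ := Real.log (Real.Gamma x)

/-- The reflection formula. -/
theorem lg_refl (x : ℚ) (h0 : 0 < x) (h1 : x < 1) : lg x + lg (1 - x) ∈ L0 := by
  have h0' : (0 : ℝ) < x := by exact_mod_cast h0
  have h1' : (x : ℝ) < 1 := by exact_mod_cast h1
  have hG : 0 < Real.Gamma x := Real.Gamma_pos_of_pos h0'
  have hG' : 0 < Real.Gamma (1 - x) := Real.Gamma_pos_of_pos (by linarith)
  unfold lg
  rw [← Real.log_mul hG.ne' hG'.ne']
  apply log_mem_Lam (mul_pos hG hG')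
  rw [Real.Gamma_mul_Gamma_one_sub]
  push_cast
  apply div_mem pi_mem
  apply alg_mem_Cl
  have h := Complex.isAlgebraic_sin_rat_mul_pi x
  rw [mul_comm] at h
  exact (IsFractionRing.isAlgebraic_iff ℤ ℚ ℂ).1 h

/-- The multiplication formula of Gauss. -/
theorem lg_mult (N : ℕ) (hN : 0 < N) (y : ℚ) (hy : 0 < y) :
    lg y - ∑ j ∈ Finset.range N, lg ((y + j) / N) ∈ L0 := by
  obtain ⟨C, hC, hf⟩ := Pool.Agent.R260.Lr.gauss N hN
  have hN' : (0 : ℝ) < N := by exact_mod_cast hN
  have hform : ∀ x : ℝ, 0 < x →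
      lg x - ∑ j ∈ Finset.range N, lg ((x + j) / N) = Real.log C + x * Real.log N := by
    intro x hx
    unfold lg
    rw [hf x hx, Real.log_mul (by positivity), Real.log_mul hC.ne' (by positivity),
      Real.log_rpow hN', Real.log_prod]
    · ring
    · intro j _
      exact (Real.Gamma_pos_of_pos (by positivity)).ne'
    · apply Finset.prod_ne_zero_iff.2
      intro j _
      exact (Real.Gamma_pos_of_pos (by positivity)).ne'
  have hlogN : Real.log N ∈ L0 := by
    apply log_mem_Lam hN'
    have := _root_.natCast_mem (Cl {(Real.pi : ℂ)}) N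
    simpa using this
  have hlogC : Real.log C ∈ L0 := by
    have h1 := hform 1 one_pos
    have h2 : (2 : ℚ) • (∑ j ∈ Finset.range N, lg ((1 + j) / N)) ∈ L0 := by
      obtain ⟨n, rfl⟩ : ∃ n, N = n + 1 := ⟨N - 1, by omega⟩
      rw [Finset.sum_range_succ]
      have h3 : lg ((1 + (n : ℝ)) / ((n + 1 : ℕ) : ℝ)) = 0 := by
        unfold lg
        have : ((1 + (n : ℝ)) / ((n + 1 : ℕ) : ℝ)) = 1 := by
          push_cast
          rw [add_comm]
          exact div_self (by positivity)
        rw [this, Real.Gamma_one, Real.log_one]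
      rw [h3, add_zero]
      have h4 : (2 : ℚ) • (∑ j ∈ Finset.range n, lg ((1 + (j : ℝ)) / ((n + 1 : ℕ) : ℝ))) =
          ∑ j ∈ Finset.range n, (lg ((1 + (j : ℝ)) / ((n + 1 : ℕ) : ℝ)) +
            lg (1 - (1 + (j : ℝ)) / ((n + 1 : ℕ) : ℝ))) := by
        rw [Finset.sum_add_distrib]
        have h5 : ∑ j ∈ Finset.range n, lg (1 - (1 + (j : ℝ)) / ((n + 1 : ℕ) : ℝ)) =
            ∑ j ∈ Finset.range n, lg ((1 + (j : ℝ)) / ((n + 1 : ℕ) : ℝ)) := by
          rw [← Finset.sum_range_reflect]
          apply Finset.sum_congr rfl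
          intro j hj
          rw [Finset.mem_range] at hj
          congr 1
          have h6 : ((n - 1 - j : ℕ) : ℝ) = (n : ℝ) - 1 - j := by
            rw [Nat.cast_sub (by omega), Nat.cast_sub (by omega)]
            simp
          rw [h6]
          have h7 : (((n + 1 : ℕ) : ℝ)) ≠ 0 := by positivity
          push_cast
          push_cast at h7
          field_simp
          ring
        rw [h5, Rat.smul_def]
        push_cast
        ring
      rw [h4]
      apply Submodule.sum_mem
      intro j hj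
      rw [Finset.mem_range] at hj
      have h8 := lg_refl ((1 + (j : ℚ)) / ((n + 1 : ℕ) : ℚ)) (by positivity) (by
        rw [div_lt_one (by positivity)]
        push_cast
        have : (j : ℚ) < n := by exact_mod_cast hj
        linarith)
      push_cast at h8 ⊢
      exact h8
    have h9 : ∑ j ∈ Finset.range N, lg ((1 + (j : ℝ)) / N) ∈ L0 := by
      have := Submodule.smul_mem L0 (1 / 2 : ℚ) h2
      rw [smul_smul] at this
      norm_num at this
      exact this
    have h10 : Real.log C = lg 1 - ∑ j ∈ Finset.range N, lg ((1 + (j : ℝ)) / N) - Real.log N := by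
      rw [h1]
      ring
    rw [h10]
    apply Submodule.sub_mem _ (Submodule.sub_mem _ _ h9) hlogN
    unfold lg
    rw [Real.Gamma_one, Real.log_one]
    exact Submodule.zero_mem _
  rw [hform y (by exact_mod_cast hy)]
  apply Submodule.add_mem _ hlogC
  have := Submodule.smul_mem L0 y hlogN
  rw [Rat.smul_def] at this
  exact this

end Pool.Agent.U171.LRo
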