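import Mathlib

/-!
# Distribution relations and Dirichlet characters
-/

set_option autoImplicit false
set_option linter.unusedSectionVars false
set_option maxHeartbeats 4000000
set_option synthInstance.maxHeartbeats 400000

open Finset

namespace Pool.Agent.U171.LRo

/-- The distribution relations `F(y) = ∑_{j < N} F((y + j) / N)`. -/
def IsDist (F : ℚ → ℂ) : Prop :=
  ∀ (N : ℕ) (y : ℚ), 0 < N → 0 < y → F y = ∑ j ∈ range N, F ((y + j) / N)

theorem sum_block (f : ℕ → ℂ) (m N : ℕ) :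
    ∑ a ∈ range (N * m), f a = ∑ j ∈ range N, ∑ b ∈ range m, f (j * m + b) := by
  induction N with
  | zero => simp
  | succ n ih => rw [Nat.succ_mul, Finset.sum_range_add, ih, Finset.sum_range_succ]

theorem dist_sum {F : ℚ → ℂ} (hF : IsDist F) {m : ℕ} (hm : 0 < m) (ψ : DirichletCharacter ℂ m)
    (N : ℕ) (hN : 0 < N) :
    ∑ a ∈ range (N * m), ψ ((a + 1 : ℕ) : ZMod m) * F (((a + 1 : ℕ) : ℚ) / ((N * m : ℕ) : ℚ)) =
      ∑ b ∈ range m, ψ ((b + 1 : ℕ) : ZMod m) * F (((b + 1 : ℕ) : ℚ) / (m : ℚ)) := by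
  rw [sum_block, Finset.sum_comm]
  apply Finset.sum_congr rfl
  intro b _
  have hm' : (m : ℚ) ≠ 0 := by exact_mod_cast hm.ne'
  have hN' : (N : ℚ) ≠ 0 := by exact_mod_cast hN.ne'
  rw [hF N _ hN (by positivity : (0 : ℚ) < ((b + 1 : ℕ) : ℚ) / (m : ℚ)), Finset.mul_sum]
  apply Finset.sum_congr rfl
  intro j _
  congr 2
  · push_cast
    simp
  · push_cast
    field_simp
    ring

theorem dist_sum_prime {F : ℚ → ℂ} (hF : IsDist F) {m : ℕ} (hm : 0 < m) (ψ : DirichletCharacter ℂ m)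
    (p : ℕ) (hp : 0 < p) (N : ℕ) (hN : 0 < N) :
    ∑ a ∈ range (N * m * p), (if p ∣ a + 1 then 0 else
      ψ ((a + 1 : ℕ) : ZMod m) * F (((a + 1 : ℕ) : ℚ) / ((N * m * p : ℕ) : ℚ))) =
      (1 - ψ ((p : ℕ) : ZMod m)) * ∑ b ∈ range m, ψ ((b + 1 : ℕ) : ZMod m) * F (((b + 1 : ℕ) : ℚ) / (m : ℚ)) := by
  have h1 := dist_sum hF hm ψ (N * p) (Nat.mul_pos hN hp)
  have h2 := dist_sum hF hm ψ N hN
  have e : N * p * m = N * m * p := by ring
  rw [e] at h1
  have h3 : ∑ a ∈ range (N * m * p), (if p ∣ a + 1 then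
      ψ ((a + 1 : ℕ) : ZMod m) * F (((a + 1 : ℕ) : ℚ) / ((N * m * p : ℕ) : ℚ)) else 0) =
      ψ ((p : ℕ) : ZMod m) * ∑ b ∈ range m, ψ ((b + 1 : ℕ) : ZMod m) * F (((b + 1 : ℕ) : ℚ) / (m : ℚ)) := by
    rw [← h2, sum_block, Finset.mul_sum]
    apply Finset.sum_congr rfl
    intro c _
    rw [Finset.sum_eq_single (p - 1)]
    · have e1 : c * p + (p - 1) + 1 = p * (c + 1) := by
        rw [add_assoc, Nat.sub_add_cancel hp]
        ring
      rw [e1, if_pos (Dvd.intro _ rfl)]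
      have hp' : (p : ℚ) ≠ 0 := by exact_mod_cast hp.ne'
      have hNm : ((N * m : ℕ) : ℚ) ≠ 0 := by exact_mod_cast (Nat.mul_pos hN hm).ne'
      have e2 : ((p * (c + 1) : ℕ) : ℚ) / ((N * m * p : ℕ) : ℚ) = ((c + 1 : ℕ) : ℚ) / ((N * m : ℕ) : ℚ) := by
        rw [Nat.cast_mul p, Nat.cast_mul (N * m)]
        rw [mul_comm ((N * m : ℕ) : ℚ)]
        exact mul_div_mul_left _ _ hp'
      rw [e2, Nat.cast_mul p, map_mul, mul_assoc]
    · intro b hb hbp
      rw [Finset.mem_range] at hb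
      rw [if_neg]
      intro hd
      apply hbp
      have h4 : p ∣ b + 1 := by
        rw [add_assoc] at hd
        exact (Nat.dvd_add_right (Dvd.intro_left _ rfl)).1 hd
      have h5 := Nat.le_of_dvd (Nat.succ_pos _) h4
      omega
    · intro h
      exact absurd (Finset.mem_range.2 (by omega)) h
  have h4 : ∑ a ∈ range (N * m * p), (if p ∣ a + 1 then 0 else
      ψ ((a + 1 : ℕ) : ZMod m) * F (((a + 1 : ℕ) : ℚ) / ((N * m * p : ℕ) : ℚ))) =
      ∑ a ∈ range (N * m * p), ψ ((a + 1 : ℕ) : ZMod m) * F (((a + 1 : ℕ) : ℚ) / ((N * m * p : ℕ) : ℚ)) -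
      ∑ a ∈ range (N * m * p), (if p ∣ a + 1 then
      ψ ((a + 1 : ℕ) : ZMod m) * F (((a + 1 : ℕ) : ℚ) / ((N * m * p : ℕ) : ℚ)) else 0) := by
    rw [← Finset.sum_sub_distrib]
    apply Finset.sum_congr rfl
    intro a _
    by_cases h : p ∣ a + 1
    · rw [if_pos h, if_pos h, sub_self]
    · rw [if_neg h, if_neg h, sub_zero]
  rw [h4, h3, h1]
  ring

/-- sums over the units modulo `q` -/
theorem sum_units {q : ℕ} [NeZero q] (hq : 1 < q) (χ : DirichletCharacter ℂ q) (F : ℚ → ℂ) :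
    ∑ u : (ZMod q)ˣ, χ (u : ZMod q) * F (((u : ZMod q).val : ℚ) / q) =
      ∑ a ∈ range q, χ ((a + 1 : ℕ) : ZMod q) * F (((a + 1 : ℕ) : ℚ) / q) := by
  have h1 : ∑ u : (ZMod q)ˣ, χ (u : ZMod q) * F (((u : ZMod q).val : ℚ) / q) =
      ∑ x : ZMod q, χ x * F ((x.val : ℚ) / q) := by
    classical
    rw [← Finset.sum_subset (Finset.subset_univ (Finset.univ.image (fun u : (ZMod q)ˣ => (u : ZMod q))))]
    · rw [Finset.sum_image]
      intro a _ b _ hab
      exact Units.ext hab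
    · intro x _ hx
      have hnu : ¬ IsUnit x := by
        rintro ⟨u, rfl⟩
        exact hx (Finset.mem_image.2 ⟨u, Finset.mem_univ _, rfl⟩)
      rw [MulChar.map_nonunit χ hnu, zero_mul]
  have h2 : ∑ x : ZMod q, χ x * F ((x.val : ℚ) / q) =
      ∑ a ∈ range q, χ ((a : ℕ) : ZMod q) * F ((a : ℚ) / q) := by
    refine Finset.sum_bij' (fun x _ => x.val) (fun a _ => (a : ZMod q)) ?_ ?_ ?_ ?_ ?_
    · intro x _
      exact Finset.mem_range.2 (ZMod.val_lt x)
    · intro a _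
      exact Finset.mem_univ _
    · intro x _
      exact ZMod.natCast_zmod_val x
    · intro a ha
      exact ZMod.val_cast_of_lt (Finset.mem_range.1 ha)
    · intro x _
      simp only [ZMod.natCast_zmod_val]
  have h0 : χ ((0 : ℕ) : ZMod q) = 0 := by
    rw [Nat.cast_zero]
    exact DirichletCharacter.map_zero' χ hq.ne'
  have hqq : χ ((q : ℕ) : ZMod q) = 0 := by
    rw [ZMod.natCast_self]
    exact DirichletCharacter.map_zero' χ hq.ne'
  have h3 := Finset.sum_range_succ (fun a : ℕ => χ ((a : ℕ) : ZMod q) * F ((a : ℚ) / q)) q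
  rw [Finset.sum_range_succ'] at h3
  rw [h0, hqq, zero_mul, zero_mul, add_zero, add_zero] at h3
  rw [h1, h2, ← h3]

theorem sum_degenerate_aux {q m : ℕ} [NeZero q] (hq : 1 < q) {F : ℚ → ℂ} (hF : IsDist F) (hmpos : 0 < m)
    (hmq : m ∣ q) (ψ : DirichletCharacter ℂ m) (p k : ℕ) (hp : p.Prime) (hqe : q = p ^ k * m * p)
    (hψp : ψ ((p : ℕ) : ZMod m) = 1) :
    ∑ u : (ZMod q)ˣ, (DirichletCharacter.changeLevel hmq ψ) (u : ZMod q) * F (((u : ZMod q).val : ℚ) / q) = 0 := by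
  have hpq : p ∣ q := by
    rw [hqe]
    exact Dvd.intro_left _ rfl
  rw [sum_units hq]
  have hN : 0 < p ^ k := pow_pos hp.pos k
  have hmain := dist_sum_prime hF hmpos ψ p hp.pos (p ^ k) hN
  rw [hψp, sub_self, zero_mul, ← hqe] at hmain
  rw [← hmain]
  apply Finset.sum_congr rfl
  intro a _
  by_cases hc : Nat.Coprime (a + 1) q
  · have hnp : ¬ p ∣ a + 1 := by
      intro hd
      have := Nat.dvd_gcd hd hpq
      rw [hc] at this
      exact hp.one_lt.ne' (Nat.dvd_one.1 this)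
    rw [if_neg hnp]
    congr 1
    have h5 := DirichletCharacter.changeLevel_eq_cast_of_dvd' ψ hmq
      (a := ((a + 1 : ℕ) : ℤ)) (Nat.isCoprime_iff_coprime.2 hc)
    rw [Int.cast_natCast, Int.cast_natCast] at h5
    exact h5
  · have h6 : (DirichletCharacter.changeLevel hmq ψ) ((a + 1 : ℕ) : ZMod q) = 0 := by
      apply MulChar.map_nonunit
      rw [ZMod.isUnit_iff_coprime]
      exact hc
    rw [h6, zero_mul]
    by_cases hd : p ∣ a + 1
    · rw [if_pos hd]
    · rw [if_neg hd]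
      have h7 : ψ ((a + 1 : ℕ) : ZMod m) = 0 := by
        apply MulChar.map_nonunit
        rw [ZMod.isUnit_iff_coprime]
        intro hcm
        apply hc
        rw [hqe]
        have hcp : Nat.Coprime (a + 1) p := (Nat.Coprime.symm ((Nat.Prime.coprime_iff_not_dvd hp).2 hd))
        exact Nat.Coprime.mul_right (Nat.Coprime.mul_right (Nat.Coprime.pow_right k hcp) hcm) hcp
      rw [h7, zero_mul]

/-- The sum of a distribution over the primitive fractions, against a character whose primitive character is `1` at a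
prime divisor of the modulus, is zero. -/
theorem sum_degenerate {q : ℕ} [NeZero q] (hq : 1 < q) {F : ℚ → ℂ} (hF : IsDist F)
    (χ : DirichletCharacter ℂ q) (p : ℕ) (hp : p.Prime) (hpq : p ∣ q) (h : χ.primitiveCharacter p = 1) :
    ∑ u : (ZMod q)ˣ, χ (u : ZMod q) * F (((u : ZMod q).val : ℚ) / q) = 0 := by
  have : Fact p.Prime := ⟨hp⟩
  rw [← DirichletCharacter.mem_subgroupOfPrimitiveMapToOne_iff] at h
  unfold DirichletCharacter.subgroupOfPrimitiveMapToOne at h
  rw [Subgroup.mem_map] at h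
  obtain ⟨ψ, hψ, rfl⟩ := h
  rw [DirichletCharacter.mem_annihilator_iff] at hψ
  have hψp : ψ ((p : ℕ) : ZMod (q / p ^ q.factorization p)) = 1 := by
    have := hψ _ (Set.mem_singleton _)
    rwa [ZMod.coe_unitOfCoprime] at this
  have hmpos : 0 < q / p ^ q.factorization p := Nat.ordCompl_pos p (NeZero.ne q)
  have hk : q.factorization p ≠ 0 := by
    have := hp.factorization_pos_of_dvd (NeZero.ne q) hpq
    omega
  obtain ⟨k, hk'⟩ := Nat.exists_eq_succ_of_ne_zero hk
  have hqe : q = p ^ k * (q / p ^ q.factorization p) * p := by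
    have h1 := Nat.ordProj_mul_ordCompl_eq_self q p
    have h2 : p ^ q.factorization p = p ^ k * p := by rw [hk', Nat.succ_eq_add_one, pow_succ]
    calc q = p ^ q.factorization p * (q / p ^ q.factorization p) := h1.symm
      _ = (p ^ k * p) * (q / p ^ q.factorization p) := by rw [← h2]
      _ = p ^ k * (q / p ^ q.factorization p) * p := by ring
  exact sum_degenerate_aux hq hF hmpos (Nat.ordCompl_dvd q p) ψ p k hp hqe hψp

/-- An odd function and an even character. -/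
theorem sum_even {q : ℕ} [NeZero q] (hq : 1 < q) {F : ℚ → ℂ} (hF : ∀ x : ℚ, 0 < x → x < 1 → F x + F (1 - x) = 0)
    (χ : DirichletCharacter ℂ q) (h : χ.Even) :
    ∑ u : (ZMod q)ˣ, χ (u : ZMod q) * F (((u : ZMod q).val : ℚ) / q) = 0 := by
  have hq0 : (0 : ℚ) < q := by exact_mod_cast (NeZero.pos q)
  have h1 : ∑ u : (ZMod q)ˣ, χ (u : ZMod q) * F (((u : ZMod q).val : ℚ) / q) =
      ∑ u : (ZMod q)ˣ, χ ((-u : (ZMod q)ˣ) : ZMod q) * F ((((-u : (ZMod q)ˣ) : ZMod q).val : ℚ) / q) :=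
    (Equiv.sum_comp (Equiv.neg (ZMod q)ˣ)
      (fun u : (ZMod q)ˣ => χ (u : ZMod q) * F (((u : ZMod q).val : ℚ) / q))).symm
  have h2 : ∑ u : (ZMod q)ˣ, χ ((-u : (ZMod q)ˣ) : ZMod q) * F ((((-u : (ZMod q)ˣ) : ZMod q).val : ℚ) / q) =
      - ∑ u : (ZMod q)ˣ, χ (u : ZMod q) * F (((u : ZMod q).val : ℚ) / q) := by
    rw [← Finset.sum_neg_distrib]
    apply Finset.sum_congr rfl
    intro u _
    have hu0 : (u : ZMod q) ≠ 0 := by
      have : Nontrivial (ZMod q) := ZMod.nontrivial_iff.2 hq.ne'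
      exact u.ne_zero
    have hv0 : 0 < (u : ZMod q).val := Nat.pos_of_ne_zero (fun h => hu0 ((ZMod.val_eq_zero _).1 h))
    have hvq : (u : ZMod q).val < q := ZMod.val_lt _
    have e1 : (((-u : (ZMod q)ˣ) : ZMod q).val) = q - (u : ZMod q).val := by
      rw [Units.val_neg, ZMod.neg_val, if_neg hu0]
    have e2 : χ ((-u : (ZMod q)ˣ) : ZMod q) = χ (u : ZMod q) := by
      rw [Units.val_neg]
      exact DirichletCharacter.Even.eval_neg χ _ h
    have e3 : F ((((-u : (ZMod q)ˣ) : ZMod q).val : ℚ) / q) = - F (((u : ZMod q).val : ℚ) / q) := by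
      rw [e1, Nat.cast_sub hvq.le, sub_div, div_self hq0.ne']
      have := hF (((u : ZMod q).val : ℚ) / q) (div_pos (by exact_mod_cast hv0) hq0) (by
        rw [div_lt_one hq0]
        exact_mod_cast hvq)
      linear_combination this
    rw [e2, e3]
    ring
  have h3 := h1.trans h2
  have h4 : (2 : ℂ) * ∑ u : (ZMod q)ˣ, χ (u : ZMod q) * F (((u : ZMod q).val : ℚ) / q) = 0 := by
    linear_combination h3
  exact (mul_eq_zero.1 h4).resolve_left two_ne_zero

/-- Fourier inversion on the units. -/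
theorem fourier {q : ℕ} [NeZero q] (f : (ZMod q)ˣ → ℂ) (u : (ZMod q)ˣ) :
    (q.totient : ℂ) * f u =
      ∑ χ : DirichletCharacter ℂ q, (∑ v : (ZMod q)ˣ, (χ⁻¹) (v : ZMod q) * f v) * χ (u : ZMod q) := by
  have h1 : ∀ v : (ZMod q)ˣ, ∑ χ : DirichletCharacter ℂ q, (χ⁻¹) (v : ZMod q) * χ (u : ZMod q) =
      if v = u then (q.totient : ℂ) else 0 := by
    intro v
    have h2 := DirichletCharacter.sum_char_inv_mul_char_eq ℂ (a := (v : ZMod q)) v.isUnit (u : ZMod q)
    have h3 : ∀ χ : DirichletCharacter ℂ q, (χ⁻¹) (v : ZMod q) = χ ((v : ZMod q)⁻¹) := by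
      intro χ
      rw [MulChar.inv_apply]
      congr 1
      rw [Ring.inverse_unit, ZMod.inv_coe_unit]
    simp_rw [h3]
    rw [h2]
    by_cases h : v = u
    · rw [if_pos h, if_pos (by rw [h])]
    · rw [if_neg h, if_neg (fun h' => h (Units.ext h'))]
  calc (q.totient : ℂ) * f u = ∑ v : (ZMod q)ˣ, f v * (if v = u then (q.totient : ℂ) else 0) := by
        simp [mul_comm]
    _ = ∑ v : (ZMod q)ˣ, f v * ∑ χ : DirichletCharacter ℂ q, (χ⁻¹) (v : ZMod q) * χ (u : ZMod q) := by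
        simp_rw [h1]
    _ = _ := by
        simp_rw [Finset.mul_sum]
        rw [Finset.sum_comm]
        apply Finset.sum_congr rfl
        intro χ _
        rw [Finset.sum_mul]
        apply Finset.sum_congr rfl
        intro v _
        ring

end Pool.Agent.U171.LRo
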