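import Mathlib
import Pool.Agent.U171.LRo.Dist

/-!
# The rank of the values of an odd distribution at the primitive fractions
-/

set_option autoImplicit false
set_option linter.unusedSectionVars false
set_option maxHeartbeats 4000000
set_option synthInstance.maxHeartbeats 400000

open Finset

namespace Pool.Agent.U171.LRo

/-- An odd Dirichlet character modulo `q` whose primitive character is not `1` at any prime divisor of `q`. -/
def Good {q : ℕ} (χ : DirichletCharacter ℂ q) : Prop :=
  χ.Odd ∧ ∀ p : ℕ, p.Prime → p ∣ q → χ.primitiveCharacter p ≠ 1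

theorem coef_zero {q : ℕ} [NeZero q] (hq : 1 < q) {F : ℚ → ℂ} (hF : IsDist F)
    (hF' : ∀ x : ℚ, 0 < x → x < 1 → F x + F (1 - x) = 0) (χ : DirichletCharacter ℂ q) (h : ¬ Good χ) :
    ∑ u : (ZMod q)ˣ, (χ⁻¹) (u : ZMod q) * F (((u : ZMod q).val : ℚ) / q) = 0 := by
  by_cases ho : χ.Odd
  · have h2 : ∃ p : ℕ, p.Prime ∧ p ∣ q ∧ χ.primitiveCharacter p = 1 := by
      by_contra hc
      apply h
      refine ⟨ho, fun p hp hpq h1 => hc ⟨p, hp, hpq, h1⟩⟩
    obtain ⟨p, hp, hpq, h1⟩ := h2
    have : Fact p.Prime := ⟨hp⟩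
    apply sum_degenerate hq hF _ p hp hpq
    rw [← DirichletCharacter.mem_subgroupOfPrimitiveMapToOne_iff] at h1 ⊢
    exact inv_mem h1
  · have he : χ.Even := (DirichletCharacter.even_or_odd χ).resolve_right ho
    apply sum_even hq hF'
    unfold DirichletCharacter.Even at he ⊢
    rw [MulChar.inv_apply]
    have : Ring.inverse (-1 : ZMod q) = -1 := by
      have h3 := Ring.inverse_unit (-1 : (ZMod q)ˣ)
      simpa using h3
    rw [this]
    exact he

theorem rank_le {q : ℕ} [NeZero q] (hq : 1 < q) {V : Type} [AddCommGroup V] [Module ℚ V] (ell : ℚ → V)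
    (hd : ∀ (N : ℕ) (y : ℚ), 0 < N → 0 < y → ell y = ∑ j ∈ range N, ell ((y + j) / N))
    (hr : ∀ x : ℚ, 0 < x → x < 1 → ell x + ell (1 - x) = 0) (b : Set V)
    (hb : b ⊆ Set.range (fun u : (ZMod q)ˣ => ell (((u : ZMod q).val : ℚ) / q)))
    (hli : LinearIndependent ℚ ((↑) : b → V)) :
    Cardinal.mk b ≤ (Nat.card {χ : DirichletCharacter ℂ q // Good χ} : ℕ) := by
  classical
  have hch : ∀ v : b, ∃ u : (ZMod q)ˣ, ell (((u : ZMod q).val : ℚ) / q) = v := fun v => hb v.2
  choose g hg using hch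
  have hli' : LinearIndepOn ℚ id b := hli
  set B := Module.Basis.extend hli' with hB
  have hsub : ∀ v : b, (v : V) ∈ hli'.extend (Set.subset_univ b) := fun v => hli'.subset_extend _ v.2
  let θ : b → V →ₗ[ℚ] ℚ := fun v => B.coord ⟨v, hsub v⟩
  have hθ : ∀ v w : b, θ v (w : V) = if v = w then 1 else 0 := by
    intro v w
    have h1 : (w : V) = B ⟨w, hsub w⟩ := by
      rw [hB, Module.Basis.extend_apply_self]
    change B.coord ⟨v, hsub v⟩ (w : V) = _
    rw [Module.Basis.coord_apply]
    conv_lhs => rw [h1]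
    rw [Module.Basis.repr_self, Finsupp.single_apply]
    by_cases h : v = w
    · rw [if_pos h, if_pos (by rw [h])]
    · rw [if_neg h, if_neg]
      intro h'
      apply h
      exact Subtype.ext (congrArg (fun z : hli'.extend (Set.subset_univ b) => (z : V)) h').symm
  let F : b → ℚ → ℂ := fun v x => ((θ v (ell x) : ℚ) : ℂ)
  have hFd : ∀ v, IsDist (F v) := by
    intro v N y hN hy
    change ((θ v (ell y) : ℚ) : ℂ) = ∑ j ∈ range N, ((θ v (ell ((y + j) / N)) : ℚ) : ℂ)
    rw [hd N y hN hy, map_sum]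
    push_cast
    rfl
  have hFr : ∀ v, ∀ x : ℚ, 0 < x → x < 1 → F v x + F v (1 - x) = 0 := by
    intro v x h0 h1
    change ((θ v (ell x) : ℚ) : ℂ) + ((θ v (ell (1 - x)) : ℚ) : ℂ) = 0
    rw [← Rat.cast_add, ← map_add, hr x h0 h1, map_zero, Rat.cast_zero]
  let f : b → (ZMod q)ˣ → ℂ := fun v u => F v (((u : ZMod q).val : ℚ) / q)
  have hfg : ∀ v w : b, f v (g w) = if v = w then 1 else 0 := by
    intro v w
    change ((θ v (ell ((((g w : (ZMod q)ˣ) : ZMod q).val : ℚ) / q)) : ℚ) : ℂ) = _
    rw [hg w, hθ v w]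
    by_cases h : v = w
    · rw [if_pos h, if_pos h, Rat.cast_one]
    · rw [if_neg h, if_neg h, Rat.cast_zero]
  have hlif : LinearIndependent ℂ f := by
    rw [linearIndependent_iff']
    intro s c hc w hw
    have h1 := congrFun hc (g w)
    rw [Finset.sum_apply] at h1
    simp only [Pi.smul_apply, smul_eq_mul, Pi.zero_apply] at h1
    rw [Finset.sum_eq_single w] at h1
    · rw [hfg, if_pos rfl, mul_one] at h1
      exact h1
    · intro v _ hvw
      rw [hfg, if_neg hvw, mul_zero]
    · intro h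
      exact absurd hw h
  let W : Finset ((ZMod q)ˣ → ℂ) :=
    (Finset.univ.filter (fun χ : DirichletCharacter ℂ q => Good χ)).image
      (fun χ => fun u : (ZMod q)ˣ => χ (u : ZMod q))
  have htot : (q.totient : ℂ) ≠ 0 := by
    have : 0 < q.totient := Nat.totient_pos.2 (NeZero.pos q)
    exact_mod_cast this.ne'
  have hspan : Set.range f ≤ Submodule.span ℂ (W : Set ((ZMod q)ˣ → ℂ)) := by
    rintro _ ⟨v, rfl⟩
    have h1 : f v = ∑ χ ∈ Finset.univ.filter (fun χ : DirichletCharacter ℂ q => Good χ),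
        ((q.totient : ℂ)⁻¹ * ∑ w : (ZMod q)ˣ, (χ⁻¹) (w : ZMod q) * f v w) •
          (fun u : (ZMod q)ˣ => χ (u : ZMod q)) := by
      funext u
      rw [Finset.sum_apply]
      simp only [Pi.smul_apply, smul_eq_mul]
      have h2 := fourier (f v) u
      rw [← Finset.sum_filter_add_sum_filter_not Finset.univ (fun χ : DirichletCharacter ℂ q => Good χ)] at h2
      have h3 : ∑ χ ∈ Finset.univ.filter (fun χ : DirichletCharacter ℂ q => ¬ Good χ),
          (∑ w : (ZMod q)ˣ, (χ⁻¹) (w : ZMod q) * f v w) * χ (u : ZMod q) = 0 := by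
        apply Finset.sum_eq_zero
        intro χ hχ
        rw [Finset.mem_filter] at hχ
        rw [coef_zero hq (hFd v) (hFr v) χ hχ.2, zero_mul]
      rw [h3, add_zero] at h2
      have h4 : f v u = (q.totient : ℂ)⁻¹ * ((q.totient : ℂ) * f v u) := by
        rw [← mul_assoc, inv_mul_cancel₀ htot, one_mul]
      rw [h4, h2, Finset.mul_sum]
      apply Finset.sum_congr rfl
      intro χ _
      ring
    rw [h1]
    apply Submodule.sum_mem
    intro χ hχ
    apply Submodule.smul_mem
    apply Submodule.subset_span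
    exact Finset.mem_coe.2 (Finset.mem_image_of_mem _ hχ)
  have h5 := linearIndependent_le_span' f hlif (W : Set ((ZMod q)ˣ → ℂ)) hspan
  refine h5.trans ?_
  have h6 : Fintype.card (W : Set ((ZMod q)ˣ → ℂ)) = W.card := by
    simp
  have h7 : W.card ≤ Nat.card {χ : DirichletCharacter ℂ q // Good χ} := by
    refine Finset.card_image_le.trans ?_
    rw [Nat.card_eq_fintype_card, Fintype.card_subtype]
  exact_mod_cast h6.le.trans h7

end Pool.Agent.U171.LRo
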