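import Mathlib
import Pool.Agent.U171.LRo.Gam
import Pool.Agent.U171.LRo.Rank

/-!
# The transcendence degree of the field generated by `π` and the numbers `Γ(a / q)` with `a` prime to `q`
-/

set_option autoImplicit false
set_option linter.unusedSectionVars false
set_option maxHeartbeats 4000000
set_option synthInstance.maxHeartbeats 400000

open IntermediateField

namespace Pool.Agent.U171.LRo

/-- The class of `log Γ(x)`. -/
noncomputable def ell (x : ℚ) : ℝ ⧸ L0 := L0.mkQ (lg x)

theorem ell_mult (N : ℕ) (y : ℚ) (hN : 0 < N) (hy : 0 < y) :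
    ell y = ∑ j ∈ Finset.range N, ell ((y + j) / N) := by
  unfold ell
  rw [← map_sum, ← sub_eq_zero, ← map_sub, Submodule.mkQ_apply, Submodule.Quotient.mk_eq_zero]
  have h := lg_mult N hN y hy
  push_cast at h ⊢
  exact h

theorem ell_refl (x : ℚ) (h0 : 0 < x) (h1 : x < 1) : ell x + ell (1 - x) = 0 := by
  unfold ell
  rw [← map_add, Submodule.mkQ_apply, Submodule.Quotient.mk_eq_zero]
  have h := lg_refl x h0 h1
  push_cast at h ⊢
  exact h

theorem trdeg_bound (q : ℕ) [NeZero q] (hq : 1 < q) (S : Set ℂ)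
    (hS : ∀ z ∈ S, z = (Real.pi : ℂ) ∨ ∃ u : (ZMod q)ˣ,
      z = ((Real.Gamma ((((u : ZMod q).val : ℚ) / q : ℚ) : ℝ) : ℝ) : ℂ)) :
    Algebra.trdeg ℚ (IntermediateField.adjoin ℚ S) ≤
      ((1 + Nat.card {χ : DirichletCharacter ℂ q // Good χ} : ℕ) : Cardinal) := by
  classical
  set t : Set (ℝ ⧸ L0) := Set.range (fun u : (ZMod q)ˣ => ell (((u : ZMod q).val : ℚ) / q)) with ht
  obtain ⟨b, hb, hspan, hli⟩ := exists_linearIndependent ℚ t
  have hcard := rank_le hq ell ell_mult ell_refl b hb hli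
  have hfin : b.Finite := (Set.finite_range _).subset hb
  have hpos : ∀ u : (ZMod q)ˣ, 0 < Real.Gamma ((((u : ZMod q).val : ℚ) / q : ℚ) : ℝ) := by
    intro u
    apply Real.Gamma_pos_of_pos
    have hq0 : (0 : ℚ) < q := by exact_mod_cast (NeZero.pos q)
    have hu0 : (u : ZMod q) ≠ 0 := by
      have : Nontrivial (ZMod q) := ZMod.nontrivial_iff.2 hq.ne'
      exact u.ne_zero
    have hv0 : 0 < (u : ZMod q).val := Nat.pos_of_ne_zero (fun h => hu0 ((ZMod.val_eq_zero _).1 h))
    have : (0 : ℚ) < ((u : ZMod q).val : ℚ) / q := div_pos (by exact_mod_cast hv0) hq0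
    exact_mod_cast this
  have hch : ∀ v : b, ∃ u : (ZMod q)ˣ, ell (((u : ZMod q).val : ℚ) / q) = v := fun v => hb v.2
  choose g hg using hch
  have : Fintype b := hfin.fintype
  let gam : (ZMod q)ˣ → ℂ := fun u => ((Real.Gamma ((((u : ZMod q).val : ℚ) / q : ℚ) : ℝ) : ℝ) : ℂ)
  set B : Finset ℂ := insert (Real.pi : ℂ) (Finset.univ.image (fun v : b => gam (g v))) with hB
  have hBcard : B.card ≤ 1 + Nat.card {χ : DirichletCharacter ℂ q // Good χ} := by
    have h1 : (Finset.univ.image (fun v : b => gam (g v))).card ≤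
        Nat.card {χ : DirichletCharacter ℂ q // Good χ} := by
      refine Finset.card_image_le.trans ?_
      rw [Cardinal.mk_fintype] at hcard
      exact_mod_cast hcard
    refine (Finset.card_insert_le _ _).trans ?_
    omega
  have hL : L0 ≤ Lam (B : Set ℂ) := Lam_mono (by
    intro z hz
    rw [Set.mem_singleton_iff] at hz
    rw [hz, hB]
    simp)
  have hbP : Submodule.span ℚ b ≤ (Lam (B : Set ℂ)).map L0.mkQ := by
    rw [Submodule.span_le]
    intro v hv
    refine ⟨lg ((((g ⟨v, hv⟩ : (ZMod q)ˣ) : ZMod q).val : ℚ) / q : ℚ), ?_, hg ⟨v, hv⟩⟩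
    apply log_mem_Lam (hpos _)
    apply subset_Cl
    rw [hB]
    exact Finset.mem_coe.2 (Finset.mem_insert_of_mem (Finset.mem_image_of_mem _ (Finset.mem_univ (⟨v, hv⟩ : b))))
  have hmem : ∀ u : (ZMod q)ˣ, lg ((((u : ZMod q).val : ℚ) / q : ℚ)) ∈ Lam (B : Set ℂ) := by
    intro u
    have h1 : ell (((u : ZMod q).val : ℚ) / q) ∈ Submodule.span ℚ b := by
      rw [hspan]
      exact Submodule.subset_span ⟨u, rfl⟩
    obtain ⟨w, hw, hw'⟩ := hbP h1
    have h2 : lg ((((u : ZMod q).val : ℚ) / q : ℚ)) - w ∈ L0 := by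
      rw [← Submodule.Quotient.mk_eq_zero, ← Submodule.mkQ_apply, map_sub, hw']
      exact sub_self _
    have h3 := Submodule.add_mem _ (hL h2) hw
    rwa [sub_add_cancel] at h3
  refine le_trans (trdeg_adjoin_le S B ?_) (by exact_mod_cast hBcard)
  intro z hz
  rw [← mem_Cl]
  rcases hS z hz with rfl | ⟨u, rfl⟩
  · exact subset_Cl _ (by rw [hB]; simp)
  · exact of_log_mem_Lam (hpos u) (hmem u)

/-- The number of odd characters. -/
theorem card_odd {q : ℕ} [NeZero q] (χ₁ : DirichletCharacter ℂ q) (h₁ : χ₁.Odd) :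
    2 * Nat.card {χ : DirichletCharacter ℂ q // χ.Odd} = q.totient := by
  classical
  have hN : Nat.card (DirichletCharacter ℂ q) = q.totient := by
    rw [MulChar.card_eq_card_units_of_hasEnoughRootsOfUnity (ZMod q) ℂ, Nat.card_eq_fintype_card,
      ZMod.card_units_eq_totient]
  have e : {χ : DirichletCharacter ℂ q // χ.Odd} ≃ {χ : DirichletCharacter ℂ q // ¬ χ.Odd} :=
    { toFun := fun χ => ⟨χ₁ * χ, by
        have h := χ.2
        unfold DirichletCharacter.Odd at h h₁ ⊢
        rw [MulChar.mul_apply, h, h₁]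
        norm_num⟩
      invFun := fun χ => ⟨χ₁⁻¹ * χ, by
        have h : χ.1.Even := (DirichletCharacter.even_or_odd χ.1).resolve_right χ.2
        unfold DirichletCharacter.Odd at h₁ ⊢
        unfold DirichletCharacter.Even at h
        have h3 : Ring.inverse (-1 : ZMod q) = -1 := by
          have h3 := Ring.inverse_unit (-1 : (ZMod q)ˣ)
          simpa using h3
        rw [MulChar.mul_apply, h, MulChar.inv_apply, h3, h₁, mul_one]⟩
      left_inv := fun χ => by
        apply Subtype.ext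
        simp
      right_inv := fun χ => by
        apply Subtype.ext
        simp }
  have h1 : Nat.card {χ : DirichletCharacter ℂ q // χ.Odd} = Nat.card {χ : DirichletCharacter ℂ q // ¬ χ.Odd} :=
    Nat.card_congr e
  have h2 : Nat.card (DirichletCharacter ℂ q) =
      Nat.card {χ : DirichletCharacter ℂ q // χ.Odd} + Nat.card {χ : DirichletCharacter ℂ q // ¬ χ.Odd} := by
    rw [← Nat.card_sum]
    exact Nat.card_congr (Equiv.sumCompl _).symm
  omega

theorem card_good_lt {q : ℕ} [NeZero q] (χ₁ : DirichletCharacter ℂ q) (h₁ : χ₁.Odd) (h₂ : ¬ Good χ₁) :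
    1 + Nat.card {χ : DirichletCharacter ℂ q // Good χ} ≤ q.totient / 2 := by
  classical
  have h3 := card_odd χ₁ h₁
  have h4 : Nat.card {χ : DirichletCharacter ℂ q // Good χ} < Nat.card {χ : DirichletCharacter ℂ q // χ.Odd} := by
    rw [Nat.card_eq_fintype_card, Nat.card_eq_fintype_card, Fintype.card_subtype, Fintype.card_subtype]
    apply Finset.card_lt_card
    refine ⟨fun χ hχ => ?_, fun h => ?_⟩
    · rw [Finset.mem_filter] at hχ ⊢
      exact ⟨hχ.1, hχ.2.1⟩
    · have h5 := h (Finset.mem_filter.2 ⟨Finset.mem_univ χ₁, h₁⟩)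
      exact h₂ (Finset.mem_filter.1 h5).2
  omega

end Pool.Agent.U171.LRo
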