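import Mathlib
import Pool.Agent.U171.LRo.Bound

/-!
# Moduli with an odd degenerate character
-/

set_option autoImplicit false
set_option linter.unusedSectionVars false
set_option maxHeartbeats 4000000
set_option synthInstance.maxHeartbeats 400000

namespace Pool.Agent.U171.LRo

theorem degenerate_of_char {q r : ℕ} [NeZero q] (hrq : r ∣ q) (ψ : DirichletCharacter ℂ r) (ho : ψ.Odd)
    (p : ℕ) (hp : p.Prime) (hpq : p ∣ q) (hpr : Nat.Coprime p r) (h : ψ ((p : ℕ) : ZMod r) = 1) :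
    ∃ χ : DirichletCharacter ℂ q, χ.Odd ∧ ¬ Good χ := by
  refine ⟨DirichletCharacter.changeLevel hrq ψ, ?_, fun hg => ?_⟩
  · have h1 := DirichletCharacter.changeLevel_eq_cast_of_dvd' ψ hrq (a := -1)
      (isCoprime_one_left.neg_left : IsCoprime (-1 : ℤ) (q : ℤ))
    unfold DirichletCharacter.Odd at ho ⊢
    push_cast at h1
    rw [h1, ho]
  · apply hg.2 p hp hpq
    have h1 := DirichletCharacter.primitiveCharacter_changeLevel_apply hrq ψ (p : ℤ)
    have h2 := DirichletCharacter.primitiveCharacter_apply_of_isCoprime ψ (a := (p : ℤ))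
      (Nat.isCoprime_iff_coprime.2 hpr)
    rw [h2] at h1
    rw [Int.cast_natCast, Int.cast_natCast] at h1
    rw [h1, h]

/-- If `-1` is not a power of the unit `p` modulo `m` then there is an odd character modulo `m` which is `1` at `p`. -/
theorem exists_odd_char {m : ℕ} [NeZero m] (p : ℕ) (hpm : Nat.Coprime p m)
    (h : ∀ n : ℕ, ((p : ℕ) : ZMod m) ^ n ≠ -1) :
    ∃ ψ : DirichletCharacter ℂ m, ψ.Odd ∧ ψ ((p : ℕ) : ZMod m) = 1 := by
  set u : (ZMod m)ˣ := ZMod.unitOfCoprime p hpm with hu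
  have hu' : (u : ZMod m) = ((p : ℕ) : ZMod m) := ZMod.coe_unitOfCoprime p hpm
  let H : Subgroup (ZMod m)ˣ := Subgroup.zpowers u
  have hnot : (-1 : (ZMod m)ˣ) ∉ H := by
    intro hm
    have h1 : (-1 : (ZMod m)ˣ) ∈ Submonoid.powers u := by
      rw [mem_powers_iff_mem_zpowers]
      exact hm
    obtain ⟨n, hn⟩ := h1
    apply h n
    rw [← hu']
    have h2 := congrArg (fun v : (ZMod m)ˣ => (v : ZMod m)) hn
    simpa using h2
  have hne : (QuotientGroup.mk (-1 : (ZMod m)ˣ) : (ZMod m)ˣ ⧸ H) ≠ 1 := by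
    intro h1
    exact hnot ((QuotientGroup.eq_one_iff _).1 h1)
  have : Finite ((ZMod m)ˣ ⧸ H) := inferInstance
  have hE : ∀ (G : Type) [CommGroup G] [Finite G], NeZero (Monoid.exponent G) :=
    fun G _ _ => ⟨Monoid.exponent_ne_zero_of_finite⟩
  have : NeZero (Monoid.exponent ((ZMod m)ˣ ⧸ H)) := hE ((ZMod m)ˣ ⧸ H)
  obtain ⟨φ, hφ⟩ := CommGroup.exists_apply_ne_one_of_hasEnoughRootsOfUnity ((ZMod m)ˣ ⧸ H) ℂ hne
  let ψ : DirichletCharacter ℂ m := MulChar.ofUnitHom (φ.comp (QuotientGroup.mk' H))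
  refine ⟨ψ, ?_, ?_⟩
  · apply (DirichletCharacter.even_or_odd ψ).resolve_left
    intro he
    apply hφ
    unfold DirichletCharacter.Even at he
    have h1 : ψ (((-1 : (ZMod m)ˣ) : ZMod m)) = ((φ.comp (QuotientGroup.mk' H)) (-1 : (ZMod m)ˣ) : ℂˣ) :=
      MulChar.ofUnitHom_coe _ _
    rw [Units.val_neg, Units.val_one, he] at h1
    apply Units.ext
    rw [Units.val_one, h1]
    rfl
  · rw [← hu']
    have h1 : ψ ((u : ZMod m)) = ((φ.comp (QuotientGroup.mk' H)) u : ℂˣ) :=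
      MulChar.ofUnitHom_coe _ _
    rw [h1]
    have h2 : (QuotientGroup.mk' H) u = 1 := by
      rw [QuotientGroup.mk'_apply, QuotientGroup.eq_one_iff]
      exact Subgroup.mem_zpowers u
    rw [MonoidHom.comp_apply, h2, map_one, Units.val_one]

theorem degenerate_of_power {q : ℕ} [NeZero q] (p : ℕ) (hp : p.Prime) (hpq : p ∣ q)
    (h : ∀ n : ℕ, ((p : ℕ) : ZMod (q / p ^ q.factorization p)) ^ n ≠ -1) :
    ∃ χ : DirichletCharacter ℂ q, χ.Odd ∧ ¬ Good χ := by
  have : NeZero (q / p ^ q.factorization p) := ⟨(Nat.ordCompl_pos p (NeZero.ne q)).ne'⟩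
  have hc : Nat.Coprime p (q / p ^ q.factorization p) := Nat.coprime_ordCompl hp (NeZero.ne q)
  obtain ⟨ψ, ho, h1⟩ := exists_odd_char p hc h
  exact degenerate_of_char (Nat.ordCompl_dvd q p) ψ ho p hp hpq hc h1

theorem power_ne_of_square {q : ℕ} [NeZero q] (p r : ℕ) (hp : p.Prime) (hr : r.Prime) (hpr : p ≠ r)
    (hr4 : r % 4 = 3) (hrq : r ∣ q) (hs : IsSquare ((p : ℕ) : ZMod r)) (n : ℕ) :
    ((p : ℕ) : ZMod (q / p ^ q.factorization p)) ^ n ≠ -1 := by
  intro h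
  have : Fact r.Prime := ⟨hr⟩
  have hrm : r ∣ q / p ^ q.factorization p := by
    apply Nat.dvd_ordCompl_of_dvd_not_dvd hrq
    intro hd
    exact hpr ((Nat.prime_dvd_prime_iff_eq hp hr).1 hd)
  have h1 := congrArg (ZMod.castHom hrm (ZMod r)) h
  rw [map_pow, map_natCast, map_neg, map_one] at h1
  have h2 : IsSquare (-1 : ZMod r) := by
    rw [← h1]
    exact hs.pow n
  rw [ZMod.exists_sq_eq_neg_one_iff] at h2
  exact h2 hr4

theorem two_primes {q : ℕ} [NeZero q] (p r : ℕ) (hp : p.Prime) (hr : r.Prime) (hpr : p ≠ r)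
    (hp4 : p % 4 = 3) (hr4 : r % 4 = 3) (hpq : p ∣ q) (hrq : r ∣ q) :
    ∃ χ : DirichletCharacter ℂ q, χ.Odd ∧ ¬ Good χ := by
  have : Fact p.Prime := ⟨hp⟩
  have : Fact r.Prime := ⟨hr⟩
  by_cases hs : IsSquare ((p : ℕ) : ZMod r)
  · exact degenerate_of_power p hp hpq (power_ne_of_square p r hp hr hpr hr4 hrq hs)
  · have h1 := ZMod.exists_sq_eq_prime_iff_of_mod_four_eq_three (p := p) (q := r) hp4 hr4 hpr
    have h2 : IsSquare ((r : ℕ) : ZMod p) := by
      rw [h1]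
      exact hs
    exact degenerate_of_power r hr hrq (power_ne_of_square r p hr hp hpr.symm hp4 hpq h2)

end Pool.Agent.U171.LRo
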